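import Mathlib

/-!
# A graph with 15 vertices and the certificate for its small positive semidefinite forcing sets
-/

set_option autoImplicit false
set_option maxRecDepth 100000

namespace Pool.Agent.X241.PSD

/-- the neighbourhoods of the vertices `0, ..., 14` as bit masks -/
def tbl : List Nat :=
  [9040, 12684, 2418, 17714, 17613, 22156, 19605, 5234, 12815, 9505, 2808, 1092, 418, 771, 120]

/-- the neighbourhood of `i` -/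
def A (i : Nat) : Nat := tbl.getD i 0

/-- the vertices -/
def ix : List Nat := [0, 1, 2, 3, 4, 5, 6, 7, 8, 9, 10, 11, 12, 13, 14]

/-- the union of the masks of the list whose index is in `c` -/
def nbL (c : Nat) : List Nat → Nat → Nat
  | [], _ => 0
  | a :: l, i => bif Nat.testBit c i then Nat.lor a (nbL c l (i + 1)) else nbL c l (i + 1)

/-- the union of the neighbourhoods of the members of `c` -/
def nb (c : Nat) : Nat := nbL c tbl 0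

/-- the vertices which can be reached from `c` inside `W` -/
def flood (W : Nat) : Nat → Nat → Option Nat
  | 0, _ => none
  | k + 1, c => bif Nat.beq (Nat.lor c (Nat.land (nb c) W)) c then some c
      else flood W k (Nat.lor c (Nat.land (nb c) W))

/-- the component of the white vertex `w` -/
def comp (B w : Nat) : Option Nat := flood (Nat.xor 32767 B) 16 (Nat.shiftLeft 1 w)

/-- some blue vertex has `w` as its only neighbour in `c` -/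
def forcedBy (B c w : Nat) : Bool :=
  ix.any fun u => Nat.testBit B u && Nat.beq (Nat.land (A u) c) (Nat.shiftLeft 1 w)

/-- the blue vertices after one step -/
def stepAux (B : Nat) : List Nat → Option Nat
  | [] => some B
  | w :: l =>
    match stepAux B l with
    | none => none
    | some r =>
      bif Nat.testBit B w then some r else
        match comp B w with
        | none => none
        | some c => bif forcedBy B c w then some (Nat.lor r (Nat.shiftLeft 1 w)) else some r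

/-- the propagation time -/
def timeM : Nat → Nat → Option Nat
  | 0, _ => none
  | k + 1, B =>
    bif ix.all (fun w => Nat.testBit B w) then some 0 else
      match stepAux B ix with
      | none => none
      | some r =>
        match timeM k r with
        | none => none
        | some t => some (t + 1)

/-- admissible propagation times -/
def okT (t : Nat) : Bool := Nat.ble 1 t && Nat.ble t 9 && !(Nat.beq t 4)

/-- the propagation time of `S` is admissible -/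
def leafOK (S : Nat) : Bool :=
  match timeM 20 S with
  | none => false
  | some t => okT t

/-- `f` is connected and no vertex outside has exactly one neighbour in `f` -/
def isFort (f s : Nat) : Bool :=
  Nat.testBit f s && Nat.blt s 15 && Nat.blt f 32768 &&
  (match flood f 16 (Nat.shiftLeft 1 s) with
    | none => false
    | some r => Nat.beq r f) &&
  ix.all (fun u => Nat.testBit f u || Nat.beq (Nat.land (A u) f) 0 ||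
    !(Nat.beq (Nat.land (Nat.land (A u) f) (Nat.sub (Nat.land (A u) f) 1)) 0))

/-- search trees -/
inductive SearchTree : Type
  | F : SearchTree
  | D : Nat → Nat → SearchTree
  | B : Nat → SearchTree → SearchTree → SearchTree

open SearchTree

/-- every forcing set which contains `S`, avoids `X` and has at most `b` further elements is good -/
def chk : SearchTree → Nat → Nat → Nat → Bool
  | .F, S, _, b => Nat.beq b 0 && leafOK S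
  | .D f s, S, X, b => isFort f s &&
      (bif Nat.beq b 0 then Nat.beq (Nat.land f S) 0 else Nat.beq (Nat.land f X) f)
  | .B v t1 t2, S, X, b =>
      Nat.blt 0 b && (Nat.blt v 15 && (!(Nat.testBit S v) &&
        (chk t1 (Nat.lor S (Nat.shiftLeft 1 v)) X (Nat.sub b 1) &&
          chk t2 S (Nat.lor X (Nat.shiftLeft 1 v)) b)))

def t0 : SearchTree := B 3 (B 4 (B 7 (D 5984 5) (B 8 (D 9952 5) (B 9 (D 15744 7) (B 10 (D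
  17312 5) (B 11 (D 17312 5) (D 3968 7)))))) (B 5 (B 7 (D 5968 4) (B 8 (D 14032 4) (B 9 (D 29072 4) (B
  10 (D 21392 4) (B 11 (D 2000 4) (D 3968 7)))))) (B 7 (B 8 (D 29232 4) (B 9 (D 28976 4) (B 12 (D
  25392 4) (B 14 (D 5968 4) (D 21296 4))))) (B 8 (B 9 F (B 13 F (D 8880 4))) (B 9 (B 12 F (B 13 F (D
  12720 4))) (D 944 4)))))) (B 4 (B 5 (B 7 (D 5960 3) (B 8 (D 11848 3) (B 9 (D 9672 3) (B 10 (D 7112
  3) (B 11 (D 1992 3) (D 3968 7)))))) (B 10 (B 7 (D 19304 3) (B 8 (D 10984 3) (B 9 (D 25000 3) (B 14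
  (D 3040 5) (D 17312 5))))) (B 11 (B 6 (D 17312 5) (B 8 (D 9952 5) (B 9 (D 9576 3) (D 1896 3)))) (B
  12 (B 8 (D 11848 3) (B 9 (D 11560 3) (D 3880 3))) (D 7208 3))))) (B 7 (B 5 (B 6 (D 11800 3) (B 9 (D
  13640 3) (B 10 (D 21272 3) (B 13 (D 5960 3) (D 9816 3))))) (B 10 (B 8 (D 29232 4) (B 9 (D 24888 3)
  (B 14 (D 2936 3) (D 17208 3)))) (B 11 (B 6 (D 17208 3) (B 12 (D 1896 3) (D 5240 3))) (B 12 (B 8 (D
  11800 3) (B 9 (D 11560 3) (D 3880 3))) (D 7208 3))))) (B 8 (B 5 (B 6 (D 11800 3) (B 11 (D 9816 3) (B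
  12 (D 9816 3) (D 6360 3)))) (B 9 (B 10 (D 6360 3) (B 11 (D 5240 3) (B 12 F (D 7208 3)))) (B 13 (B 10
  (D 6360 3) (B 11 (D 5240 3) (B 12 F (D 7208 3)))) (D 8880 4)))) (B 9 (B 13 (B 6 (D 7208 3) (B 11 (D
  5240 3) (B 12 F (D 6360 3)))) (D 8600 3)) (D 920 3)))))

def t1 : SearchTree := B 3 (B 7 (B 5 (D 18242 1) (B 6 (D 20258 1) (B 8 (D 5730 1) (B 9 (D
  5474 1) (B 10 (D 19298 1) (D 1890 1)))))) (B 8 (B 5 (D 11906 1) (B 6 (D 25250 1) (B 9 (D 9442 1) (B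
  10 (D 2786 1) (D 1762 1))))) (B 9 (B 5 (D 11650 1) (B 6 (D 24994 1) (B 10 (D 2530 1) (D 1506 1))))
  (B 10 (B 5 (D 19394 1) (B 14 (D 2530 1) (D 17312 5))) (B 11 (B 5 (D 17858 1) (B 14 (D 1506 1) (D
  17312 5))) (D 3968 7)))))) (B 6 (B 5 (B 7 (D 20234 1) (B 8 (D 11906 1) (B 9 (D 24970 1) (B 14 (D
  3968 7) (D 17290 1))))) (B 10 (B 7 F (B 8 (D 25250 1) (B 9 (D 24970 1) (B 14 F (D 17312 5))))) (B 11
  (B 7 F (B 8 (D 25250 1) (B 9 (D 24970 1) (B 14 F (D 17312 5))))) (B 12 (B 8 (D 11818 1) (B 9 (D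
  11560 3) (D 3880 3))) (D 7208 3))))) (B 8 (B 5 (B 7 (D 5706 1) (B 9 (D 9418 1) (B 10 (D 10954 1) (D
  1738 1)))) (B 9 (B 10 (D 10466 1) (B 13 (D 7208 3) (D 9322 1))) (B 10 (B 7 (D 19050 1) (B 11 (D
  25250 1) (D 2786 1))) (D 1642 1)))) (B 10 (B 5 (B 7 (D 19274 1) (B 9 (D 24970 1) (B 14 (D 3018 1) (D
  17290 1)))) (B 7 (B 11 F (B 14 F (D 18794 1))) (B 11 (B 9 (D 24970 1) (B 14 F (D 17312 5))) (D 2530
  1)))) (D 1354 1))))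

def t2 : SearchTree := B 3 (B 6 (B 7 (D 20242 1) (B 8 (D 25234 1) (B 9 (D 24978 1) (B 14 (D
  3968 7) (D 17298 1))))) (B 7 (B 8 (D 13906 1) (B 9 F (B 10 F (D 1874 1)))) (B 8 (B 9 (D 9426 1) (B
  10 (D 25234 1) (D 1746 1))) (B 10 (B 9 (D 24978 1) (B 14 (D 3026 1) (D 17298 1))) (D 1490 1))))) (B
  7 (B 6 (B 8 (D 11800 3) (B 10 (D 17178 1) (B 11 (D 17178 1) (D 3354 1)))) (B 8 (B 9 (D 13386 1) (B
  10 (D 29210 1) (B 12 (D 9816 3) (D 5706 1)))) (B 10 (B 9 (D 24858 1) (B 14 (D 2906 1) (D 17178 1)))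
  (D 1354 1)))) (B 8 (B 9 (B 6 (D 11418 1) (B 11 (D 9418 1) (B 12 (D 9418 1) (D 6360 3)))) (B 13 (B 6
  (D 3738 1) (B 10 (D 6360 3) (D 1738 1))) (D 8858 1))) (B 9 (B 13 (B 6 (D 3354 1) (B 10 (D 6360 3) (D
  1354 1))) (D 8600 3)) (D 920 3))))

def t3 : SearchTree := B 1 t0 (B 4 t1 (B 5 t2 (B 7 (B 3 (B 8 (B 9 (D 28722 1) (B 12 (D 25138
  1) (B 14 (D 5730 1) (D 21042 1)))) (B 9 (B 12 F (B 14 (D 5474 1) (D 20786 1))) (B 14 (B 6 (D 3890 1)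
  (B 10 F (D 1874 1))) (D 17202 1)))) (B 8 (B 9 (B 13 (D 7208 3) (B 14 (D 9322 1) (D 24634 1))) (B 14
  (B 6 (D 3642 1) (B 10 (D 2682 1) (D 1642 1))) (D 16954 1))) (B 14 (B 6 (B 10 F (B 11 F (D 3354 1)))
  (B 10 (B 11 F (D 2426 1)) (D 1354 1))) (D 16698 1)))) (B 8 (B 9 (B 13 (B 3 F (B 10 (D 6360 3) (B 11
  (D 5240 3) (B 12 F (D 7208 3))))) (D 8370 1)) (D 690 1)) (D 434 1)))))

def t4 : SearchTree := B 4 (B 7 (B 5 (D 7937 0) (B 6 (D 21281 0) (B 8 (D 13409 0) (B 10 (D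
  6497 0) (B 12 (D 9569 0) (D 5473 0)))))) (B 8 (B 5 (D 20033 0) (B 6 (D 28320 5) (B 10 (D 26849 0) (B
  13 (D 5857 0) (D 9441 0))))) (B 9 (B 5 (D 7553 0) (B 6 (D 20897 0) (B 10 (D 2529 0) (D 1505 0)))) (B
  10 (B 5 (D 18881 0) (B 14 (D 2529 0) (D 17312 5))) (B 11 (B 5 (D 17857 0) (B 14 (D 1505 0) (D 17312
  5))) (D 3968 7)))))) (B 5 (B 6 (B 7 (D 19985 0) (B 8 (D 19985 0) (B 14 (D 3968 7) (D 16785 0)))) (B
  9 (B 7 (D 5457 0) (B 8 (D 13521 0) (B 14 (D 1489 0) (D 16785 0)))) (B 10 (B 11 (D 16785 0) (B 14 (D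
  3025 0) (D 19025 0))) (D 1617 0)))) (B 7 (B 8 (B 6 (D 12849 0) (B 9 (D 13409 0) (B 10 (D 12849 0) (D
  1617 0)))) (B 12 (B 9 (D 24881 0) (B 13 (D 1617 0) (D 9009 0))) (D 4401 0))) (B 8 (B 13 (B 9 F (B 12
  (D 1617 0) (D 4785 0))) (D 8369 0)) (D 433 0))))

def t5 : SearchTree := B 5 (B 6 (B 7 (D 7937 0) (B 8 F (B 9 (D 7553 0) (B 10 F (B 11 F (D
  3968 7)))))) (B 7 (B 8 (D 11337 0) (B 10 (D 6473 0) (B 12 (D 11337 0) (D 5449 0)))) (B 8 (B 10 (D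
  23241 0) (B 11 F (B 13 (D 20033 0) (D 11337 0)))) (B 10 (B 11 F (D 2505 0)) (D 1481 0))))) (B 7 (B
  10 (B 6 (D 20777 0) (B 8 (D 6761 0) (B 11 (D 20777 0) (D 2409 0)))) (B 11 (B 6 (D 20777 0) (B 8 (D
  13409 0) (D 1385 0))) (B 12 (B 8 (D 11337 0) (D 3369 0)) (D 7208 3)))) (B 8 (B 10 (B 6 F (B 9 (D
  10473 0) (B 11 F (D 2793 0)))) (B 11 (B 6 F (B 13 (D 1769 0) (D 9441 0))) (B 12 (B 9 (D 9441 0) (D
  3753 0)) (D 7208 3)))) (D 425 0)))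

def t6 : SearchTree := B 3 t4 (B 4 t5 (B 5 (B 7 (B 8 (B 6 (D 11289 0) (B 9 (D 9305 0) (B 10
  (D 19025 0) (D 1617 0)))) (B 12 (B 6 (D 11289 0) (B 9 (D 9305 0) (B 10 (D 19025 0) (D 1617 0)))) (D
  4377 0))) (B 8 (B 6 (B 10 F (B 11 F (B 13 (D 19985 0) (D 11289 0)))) (B 9 (B 11 (D 9305 0) (B 12 (D
  9305 0) (D 6360 3))) (B 10 (B 11 F (B 12 (D 19025 0) (D 6360 3))) (D 1617 0)))) (D 409 0))) (B 8 (B
  7 (B 9 (B 12 (D 9305 0) (B 13 (D 7208 3) (D 12345 0))) (B 12 (B 6 (D 11289 0) (B 10 (D 19025 0) (D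
  1617 0))) (D 4665 0))) (B 13 (B 9 (B 10 (D 6360 3) (B 11 (D 5240 3) (B 12 F (D 7208 3)))) (D 697 0))
  (D 8369 0))) (D 313 0))))

def t7 : SearchTree := B 7 (B 5 (B 8 (D 20033 0) (B 9 (D 17731 0) (B 10 (D 19267 0) (B 11 (D
  17731 0) (D 3843 0))))) (B 6 (B 8 (D 21027 0) (B 9 (D 23841 0) (B 14 (D 3843 0) (D 17187 0)))) (B 8
  (B 10 (D 21027 0) (B 12 (D 9315 0) (D 5219 0))) (B 10 (B 11 (D 17187 0) (B 12 (D 2915 0) (D 6497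
  0))) (D 1379 0))))) (B 8 (B 5 (B 9 (D 11395 0) (B 10 (D 19139 0) (B 11 (D 17603 0) (D 3715 0)))) (B
  6 (B 9 (D 24739 0) (B 14 (D 3715 0) (D 17059 0))) (B 10 (B 11 (D 17059 0) (D 2275 0)) (D 1251 0))))
  (B 9 (B 10 (B 5 (D 18881 0) (B 14 (D 2275 0) (D 16803 0))) (B 11 (B 5 (D 17603 0) (B 6 (D 16803 0)
  (D 1251 0))) (D 3459 0))) (D 899 0)))

def t8 : SearchTree := B 4 t7 (B 5 (B 7 (B 6 (B 8 (D 19985 0) (B 9 (D 19731 0) (B 14 (D 3843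
  0) (D 17171 0)))) (B 9 (B 8 (D 13395 0) (B 11 (D 5457 0) (D 2387 0))) (B 10 (B 8 (D 19025 0) (B 11
  (D 17171 0) (D 2387 0))) (D 1617 0)))) (B 8 (B 6 (B 9 (D 24723 0) (B 14 (D 3715 0) (D 17043 0))) (B
  10 (B 9 (D 24723 0) (B 14 (D 2771 0) (D 17043 0))) (D 1235 0))) (B 9 (B 14 (B 6 (D 3459 0) (B 10 (D
  2387 0) (D 1235 0))) (D 16785 0)) (D 899 0)))) (B 7 (B 8 (B 9 (B 12 (D 24627 0) (B 13 (D 20531 0) (D
  12339 0))) (B 12 (B 13 (D 1617 0) (D 8755 0)) (D 4659 0))) (B 12 (B 9 (B 14 (D 1379 0) (D 16691 0))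
  (D 819 0)) (D 4401 0))) (D 179 0)))

def t9 : SearchTree := B 5 (B 7 (B 6 (B 8 (D 15875 0) (B 9 (D 19723 0) (B 10 (D 21259 0) (B
  11 (D 21259 0) (D 3843 0))))) (B 8 (B 10 (D 14411 0) (B 12 (D 11337 0) (D 5195 0))) (B 10 (B 11 (D
  21259 0) (B 12 (D 2891 0) (D 6473 0))) (D 1354 1)))) (B 8 (B 6 (B 9 (D 11395 0) (B 10 F (B 11 F (D
  3715 0)))) (B 10 (B 9 (D 10443 0) (B 11 F (D 2763 0))) (D 1227 0))) (B 9 (B 14 (B 6 (D 3459 0) (B 10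
  (D 2505 0) (D 1354 1))) (D 16779 0)) (D 899 0)))) (B 7 (B 6 (B 8 (B 9 (D 24619 0) (B 14 (D 3627 0)
  (D 16939 0))) (B 14 (B 10 F (B 11 F (D 3369 0))) (D 16683 0))) (B 10 (B 8 (B 9 (D 24619 0) (B 14 (D
  2667 0) (D 16939 0))) (B 11 (B 14 F (D 16683 0)) (D 2409 0))) (D 1131 0))) (B 8 (B 9 (B 13 (B 6 (D
  7208 3) (B 10 (D 2275 0) (D 1131 0))) (D 8363 0)) (D 683 0)) (D 425 0)))

def t10 : SearchTree := B 5 (B 7 (B 8 (D 9812 2) (B 9 (D 12628 2) (B 10 (D 4948 2) (B 12 (D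
  9812 2) (D 5892 2))))) (B 8 (B 4 (D 26180 2) (B 6 (D 26132 2) (B 12 (D 9812 2) (B 14 (D 9812 2) (D
  20692 2))))) (B 9 (B 4 (D 11652 2) (B 6 (D 11652 2) (B 13 (D 20692 2) (D 8660 2)))) (B 10 (B 4 (D
  17348 2) (B 6 (D 21392 4) (D 980 2))) (D 1924 2))))) (B 6 (B 10 (B 4 (D 17312 5) (B 7 (D 2868 2) (B
  8 (D 8880 4) (B 9 (D 10548 2) (D 944 4))))) (B 12 (B 7 (D 1844 2) (B 8 (D 8880 4) (B 9 (D 9524 2) (D
  1924 2)))) (B 14 (B 8 (D 13876 2) (B 9 (D 9524 2) (D 5892 2))) (D 21540 2)))) (B 8 (B 10 (B 4 (D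
  25316 2) (B 7 (D 12916 2) (B 9 (D 20692 2) (B 13 (D 20692 2) (D 8880 4))))) (B 12 (B 4 (D 9952 5) (B
  9 F (B 13 F (D 9812 2)))) (B 14 (B 4 (D 13920 5) (D 5236 2)) (D 21540 2)))) (B 9 (B 13 (B 10 (D
  20692 2) (B 12 F (B 14 (D 5236 2) (D 21540 2)))) (D 8548 2)) (D 868 2))))

def t11 : SearchTree := B 8 (B 7 (B 9 (D 13398 1) (B 10 (D 12886 1) (B 12 (D 9812 2) (B 13 (D
  5718 1) (D 13830 1))))) (B 9 (B 4 (D 25794 1) (B 6 (D 25750 1) (B 10 (D 20692 2) (B 13 (D 20692 2)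
  (D 9426 1))))) (B 10 (B 4 (D 25286 1) (B 13 (D 20692 2) (B 14 (D 8918 1) (D 25234 1)))) (B 13 (B 4
  (D 18114 1) (B 6 (D 18070 1) (D 1746 1))) (D 9862 1))))) (B 9 (B 4 (B 7 (D 11526 1) (B 10 (D 10630
  1) (B 13 (D 17734 1) (D 9606 1)))) (B 6 (B 10 (D 10630 1) (B 14 (D 9606 1) (D 17686 1))) (B 10 (B 7
  (D 12628 2) (B 13 (D 20692 2) (D 8660 2))) (D 1366 1)))) (B 10 (B 4 (B 7 (D 17222 1) (B 11 (D 17222
  1) (D 2950 1))) (B 6 (B 7 (D 19222 1) (B 11 (D 17298 1) (D 2950 1))) (D 854 1))) (D 1798 1)))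

def t12 : SearchTree := B 1 t10 (B 5 t11 (B 6 (B 4 (B 8 (B 10 (D 25250 1) (B 12 (D 9862 1) (B
  14 (D 13830 1) (D 21540 2)))) (B 9 (B 10 (D 10630 1) (B 12 (D 9606 1) (B 14 (D 9606 1) (D 21540
  2)))) (B 10 (B 7 (D 19238 1) (B 14 (D 2950 1) (D 17312 5))) (D 1798 1)))) (B 7 (B 8 (B 9 (D 9270 1)
  (B 10 (D 2614 1) (D 1590 1))) (B 10 (B 11 (D 17202 1) (D 2358 1)) (D 1334 1))) (B 8 (B 9 (B 13 (D
  21540 2) (D 8370 1)) (D 690 1)) (D 434 1)))) (B 8 (B 9 (B 13 (B 10 (D 20692 2) (B 12 F (B 14 (D 5236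
  2) (D 21540 2)))) (D 8294 1)) (D 614 1)) (D 358 1))))

def t13 : SearchTree := B 4 (B 7 (B 8 (D 25669 0) (B 9 (D 7429 0) (B 10 (D 21316 2) (B 12 (D
  20033 0) (D 5892 2))))) (B 8 (B 6 F (B 10 F (B 13 (D 20033 0) (B 14 F (D 25669 0))))) (B 9 (B 10 (D
  16837 0) (B 11 (D 5509 0) (D 3461 0))) (B 10 (B 6 F (B 14 F (D 16837 0))) (D 1924 2))))) (B 6 (B 7
  (B 10 (D 21265 0) (B 13 (D 5892 2) (B 14 (D 5892 2) (D 25621 0)))) (B 8 (B 10 (D 23189 0) (B 13 (D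
  19985 0) (B 14 F (D 25621 0)))) (B 14 (B 9 (D 3461 0) (B 10 F (D 1924 2))) (D 16785 0)))) (B 9 (B 7
  (B 8 (D 9301 0) (B 12 (D 9301 0) (D 4437 0))) (B 8 (B 10 (D 20692 2) (B 13 (D 20692 2) (D 9301 0)))
  (D 469 0))) (B 10 (B 7 (B 8 (D 19025 0) (B 12 (D 19025 0) (D 4437 0))) (B 8 (B 11 (D 20692 2) (B 14
  F (D 19025 0))) (D 469 0))) (D 1617 0))))

def t14 : SearchTree := B 5 t13 (B 6 (B 4 (B 10 (B 7 (D 21281 0) (B 8 (D 19109 0) (B 9 (D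
  20897 0) (B 14 F (D 17312 5))))) (B 12 (B 8 (D 18085 0) (B 14 (D 1924 2) (D 17701 0))) (B 14 (B 8 F
  (B 9 (D 5509 0) (D 5892 2))) (D 21540 2)))) (B 7 (B 8 (B 10 (D 12849 0) (B 12 (D 25621 0) (B 14 (D
  5685 0) (D 21540 2)))) (B 12 (B 10 (D 2357 0) (D 1333 0)) (D 4401 0))) (B 8 (B 13 (B 9 (D 21540 2)
  (B 12 (D 1717 0) (D 4785 0))) (D 8369 0)) (D 433 0)))) (B 8 (B 4 (B 10 (B 7 (D 21093 0) (B 9 (D
  24805 0) (B 14 F (D 17125 0)))) (B 12 (B 7 (D 25669 0) (B 13 (D 1765 0) (D 9441 0))) (B 14 (B 13 (D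
  5733 0) (D 13409 0)) (D 21540 2)))) (B 9 (B 7 (B 10 (D 24661 0) (B 12 (D 9301 0) (D 5236 2))) (B 13
  (B 10 (D 20692 2) (B 12 F (D 5236 2))) (D 8369 0))) (B 10 (B 7 (B 12 (D 19025 0) (D 4725 0)) (D 757
  0)) (D 1617 0)))) (D 357 0)))

def t15 : SearchTree := B 7 (B 8 (B 4 (B 9 (D 25669 0) (B 10 (D 21063 0) (B 12 (D 20033 0) (B
  13 (D 7687 0) (D 13830 1))))) (B 6 (B 10 (D 29203 0) (B 13 (D 21527 0) (B 14 (D 13830 1) (D 25621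
  0)))) (B 9 (B 10 (D 24661 0) (B 13 (D 5207 0) (D 9301 0))) (B 10 (B 12 (D 19025 0) (D 4695 0)) (D
  1617 0))))) (B 9 (B 10 (B 4 (D 18759 0) (B 6 (D 18711 0) (B 11 (D 4437 0) (D 2387 0)))) (B 11 (B 4
  (D 17731 0) (B 6 (D 17686 1) (D 1366 1))) (D 3335 0))) (B 10 (B 4 (B 6 (D 6919 0) (B 14 (D 6919 0)
  (D 17222 1))) (B 6 (B 14 (D 6919 0) (D 17171 0)) (D 854 1))) (D 1798 1)))) (B 8 (B 9 (B 10 (B 4 (D
  24775 0) (B 13 (D 20692 2) (B 14 (D 8407 0) (D 24723 0)))) (B 13 (B 4 (D 17603 0) (B 6 (D 17559 0)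
  (D 1235 0))) (D 9351 0))) (B 10 (B 4 (B 6 F (B 14 F (D 17095 0))) (B 14 (B 6 F (D 727 0)) (D 17043
  0))) (D 1671 0))) (B 9 (B 10 (B 11 (B 4 (D 16837 0) (B 14 (D 469 0) (D 16785 0))) (D 2439 0)) (D
  1415 0)) (D 899 0)))

def t16 : SearchTree := B 7 (B 8 (B 0 (D 9804 2) (B 6 F (B 9 (D 9293 0) (B 10 F (D 1613
  0))))) (B 9 (B 0 (D 12620 2) (B 6 (D 7429 0) (B 12 (D 9293 0) (D 4429 0)))) (B 10 (B 6 F (B 12 F (D
  4940 2))) (B 12 (B 0 (D 9804 2) (B 6 F (D 1613 0))) (D 5892 2))))) (B 8 (B 0 (B 6 (D 32396 2) (B 9 F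
  (B 10 F (B 13 F (D 9804 2))))) (B 6 (B 9 F (B 10 F (B 11 F (B 12 F (B 14 F (D 24205 0)))))) (B 9 (B
  10 (D 28877 0) (B 13 F (D 9293 0))) (B 10 (B 12 F (B 14 F (D 21197 0))) (D 1613 0))))) (B 9 (B 0 (B
  6 (D 11652 2) (B 13 F (D 8652 2))) (B 6 (B 10 (D 22925 0) (B 11 (D 5509 0) (D 3461 0))) (D 461 0)))
  (B 10 (B 6 (B 11 F (B 12 F (B 14 F (D 23436 2)))) (D 972 2)) (D 1924 2))))

def t17 : SearchTree := B 8 (B 0 (B 7 (D 13830 1) (B 9 F (B 10 (D 27278 1) (B 13 F (D 9862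
  1))))) (B 7 (B 9 (D 15367 0) (B 10 (D 30735 0) (B 12 F (B 13 (D 7687 0) (D 13830 1))))) (B 9 (B 10
  (D 26767 0) (B 13 F (D 9351 0))) (B 10 (B 11 F (B 13 F (B 14 F (D 26767 0)))) (D 1671 0))))) (B 9 (B
  0 (B 7 (D 11526 1) (B 10 (D 10630 1) (B 13 F (D 9606 1)))) (B 7 (B 10 (D 22799 0) (B 11 (D 17679 0)
  (D 3335 0))) (B 10 (B 11 (D 16779 0) (D 2439 0)) (D 1415 0)))) (B 10 (B 0 (B 7 (D 23310 1) (B 11 (D
  17290 1) (D 2950 1))) (B 7 (B 11 (D 21259 0) (B 12 F (D 6919 0))) (D 899 0))) (D 1798 1)))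

def t18 : SearchTree := B 10 (B 0 (B 1 (B 6 (D 6956 2) (B 8 (D 12908 2) (B 9 (D 8548 2) (D
  868 2)))) (B 6 (B 8 (D 10798 1) (B 9 (D 10542 1) (B 11 F (D 2862 1)))) (B 8 (B 9 (D 8294 1) (D 614
  1)) (D 358 1)))) (B 1 (B 6 (B 8 (D 6701 0) (B 12 F (B 14 (D 6445 0) (D 20777 0)))) (B 8 (B 9 (D
  12397 0) (B 12 F (D 4717 0))) (D 357 0))) (B 6 (B 8 (B 9 (D 24619 0) (B 14 (D 2607 0) (D 16939 0)))
  (B 14 (B 11 F (D 2351 0)) (D 16683 0))) (D 103 0)))) (B 12 (B 0 (B 8 (B 1 (D 9804 2) (B 6 (D 9774 1)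
  (B 9 (D 8294 1) (D 614 1)))) (B 9 (B 13 (D 358 1) (D 9516 2)) (D 1836 2))) (B 8 (B 1 (B 6 F (B 9 (D
  9293 0) (D 1613 0))) (B 6 (B 9 (D 9263 0) (D 1583 0)) (D 103 0))) (D 1325 0))) (D 5164 2))

def t19 : SearchTree := B 0 (B 1 (B 6 (B 8 (D 10924 2) (B 9 (D 25000 3) (B 14 (D 2988 2) (D
  17312 5)))) (B 8 (B 9 F (B 13 F (D 8940 2))) (B 9 (B 13 F (D 8548 2)) (D 868 2)))) (B 6 (B 8 (B 9 F
  (B 13 F (B 14 (D 10798 1) (D 25250 1)))) (B 9 (B 11 (D 24970 1) (B 13 F (D 10630 1))) (B 14 (B 11 F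
  (D 2950 1)) (D 17312 5)))) (B 8 (B 9 (B 13 F (D 8294 1)) (D 614 1)) (D 358 1)))) (B 8 (B 1 (B 6 (B 9
  F (B 11 F (D 2733 0))) (B 9 (B 13 F (D 8429 0)) (D 749 0))) (B 6 (B 9 (B 13 F (D 8363 0)) (D 683 0))
  (D 103 0))) (D 425 0))

def t20 : SearchTree := B 7 (B 5 (B 1 (B 9 (D 28952 3) (B 10 (D 21272 3) (B 13 (D 5892 2) (D
  9756 2)))) (B 8 (B 9 (D 13342 1) (B 10 (D 29210 1) (B 13 (D 5662 1) (D 9756 2)))) (B 10 (B 9 (D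
  24858 1) (B 14 (D 2846 1) (D 17178 1))) (D 1310 1)))) (B 10 (B 1 (B 8 (D 29232 4) (B 9 (D 10548 2)
  (B 11 (D 17208 3) (D 2868 2)))) (B 8 (B 9 (D 10294 1) (B 11 (D 16954 1) (D 2614 1))) (B 11 (B 14 F
  (D 16698 1)) (D 2358 1)))) (B 12 (B 1 (B 8 (D 9756 2) (B 9 (D 9516 2) (D 1836 2))) (B 8 (B 9 (D 9270
  1) (D 1590 1)) (D 1310 1))) (D 5164 2)))) (B 8 (B 5 (B 1 (B 9 F (B 10 F (B 13 F (D 9756 2)))) (B 9
  (B 10 F (B 13 F (D 9374 1))) (B 13 (B 10 F (D 1694 1)) (D 8858 1)))) (B 10 (B 1 (B 9 F (B 13 F (D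
  8880 4))) (B 9 (B 13 F (D 8370 1)) (D 690 1))) (D 1196 2))) (B 9 (B 13 (B 1 (B 5 F (B 10 F (D 1196
  2))) (B 5 (B 10 F (D 1310 1)) (D 434 1))) (D 8600 3)) (D 920 3)))

def t21 : SearchTree := B 0 t20 (B 1 (B 5 (B 7 (B 8 (B 9 (D 9245 0) (B 10 F (D 1565 0))) (B
  12 (B 9 (D 9245 0) (B 10 F (D 1565 0))) (D 4377 0))) (B 8 (B 9 (B 10 (D 14493 0) (B 13 F (D 9245
  0))) (B 10 (B 11 F (B 12 F (D 6813 0))) (D 1565 0))) (D 409 0))) (B 8 (B 7 (B 10 (B 9 (D 12345 0) (B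
  12 F (D 4665 0))) (B 12 (B 9 (D 9245 0) (D 1565 0)) (D 5164 2))) (B 10 (B 13 (B 9 F (D 697 0)) (D
  8369 0)) (D 1196 2))) (D 313 0))) (B 5 (B 7 (B 8 (B 9 (B 10 (D 12315 0) (B 13 (D 5151 0) (D 9245
  0))) (B 10 (B 12 F (D 4635 0)) (D 1565 0))) (B 12 (B 9 (B 10 (D 16667 0) (D 1310 1)) (D 795 0)) (D
  4377 0))) (B 8 (B 9 (B 13 (B 10 F (D 1183 0)) (D 8347 0)) (D 667 0)) (D 409 0))) (D 59 0)))

def tree : SearchTree := B 2 (B 0 t3 (B 1 t6 (B 3 t8 (B 4 t9 (B 5 (B 7 (B 8 (B 9 (B 12 (D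
  9305 0) (B 13 (D 5195 0) (D 12315 0))) (B 12 (B 6 (D 11289 0) (B 10 (D 19025 0) (D 1617 0))) (D 4635
  0))) (B 12 (B 9 (B 14 (D 1354 1) (D 16667 0)) (D 795 0)) (D 4377 0))) (B 8 (B 9 (B 13 (B 6 (D 3227
  0) (B 10 (D 6360 3) (D 1227 0))) (D 8347 0)) (D 667 0)) (D 409 0))) (D 59 0)))))) (B 3 (B 0 t12 (B 1
  t14 (B 5 t15 (B 6 (B 4 (B 7 (B 8 (B 10 (D 21027 0) (B 12 (D 17959 0) (B 14 (D 13830 1) (D 21540
  2)))) (B 9 (B 10 (D 18727 0) (B 11 (D 17701 0) (D 3335 0))) (B 10 (B 14 (D 6919 0) (D 17187 0)) (D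
  1798 1)))) (B 8 (B 9 (B 10 (D 24739 0) (B 13 (D 21540 2) (D 9351 0))) (B 10 (B 14 F (D 17059 0)) (D
  1671 0))) (B 9 (B 10 (B 11 (D 16803 0) (D 2439 0)) (D 1415 0)) (D 899 0)))) (B 7 (B 10 (B 11 (B 8 (D
  4659 0) (B 12 (D 819 0) (D 4401 0))) (D 2103 0)) (D 1079 0)) (D 179 0))) (D 103 0))))) (B 4 (B 5 (B
  1 t16 (B 6 t17 (B 8 (B 0 (B 7 (B 9 (D 13386 1) (B 10 (D 12878 1) (B 12 (D 9804 2) (D 5706 1)))) (B 9
  (B 10 F (B 13 F (D 9418 1))) (B 10 (B 13 F (D 8910 1)) (D 1738 1)))) (B 7 (B 9 (B 10 (D 12367 0) (B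
  12 (D 9293 0) (D 5195 0))) (B 10 (B 12 F (D 4687 0)) (D 1613 0))) (B 10 (B 9 (B 13 F (D 8399 0)) (D
  719 0)) (D 1227 0)))) (B 10 (B 0 (B 9 (B 13 F (D 8526 1)) (D 846 1)) (D 335 0)) (D 1354 1))))) (B 7
  t18 (B 10 t19 (D 1196 2)))) (B 6 t21 (D 92 2))))

theorem check : chk tree 0 0 6 = true := by decide +kernel

theorem time1 : timeM 20 1394 = some 1 := by decide +kernel

end Pool.Agent.X241.PSD
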